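import Pool.Agent.Helper64.FL.StH

set_option autoImplicit false

namespace Pool.Agent.Helper5.FL

open Pool.Agent.Helper64.CT Pool.Agent.Helper64.DT Pool.Agent.Helper64.FL
open Pool.Agent.Helper64.HG (Ovl Model Circ IC HellyCircle ChordModel)

variable {V : Type}

theorem d1f_all {G : SimpleGraph V} {u n0 : V} {N : Set V} (h : ¬ Mixed G u N) (h0 : n0 ∈ N)
    (ha : G.Adj u n0) : ∀ n ∈ N, G.Adj u n := by
  intro n hn
  by_contra hc
  exact h ⟨⟨n0, h0, ha⟩, n, hn, hc⟩

theorem d1f_none {G : SimpleGraph V} {u n0 : V} {N : Set V} (h : ¬ Mixed G u N) (h0 : n0 ∈ N)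
    (ha : ¬ G.Adj u n0) : ∀ n ∈ N, ¬ G.Adj u n := by
  intro n hn hc
  exact h ⟨⟨n, hn, hc⟩, n0, h0, ha⟩

theorem st_D1F (hD0F : ST_D0F) : ST_D1F := by
  intro V G x k y u0 Lu um D
  have hk5 := D.moc.k5
  obtain ⟨-, hdi, -, -, ⟨p, hpR, hp1⟩, q, hqR, hqk⟩ := hD0F V G x k y D.moc D.dom
  have hcu0 : Comp G x (y 0) u0 := D.p.lK
  have hcum : Comp G x (y 0) um := D.p.rK
  have hum : um ∉ UU G x k y := by
    intro h
    obtain ⟨-, n, hn, hna⟩ := D.mm
    exact hna (D.u1 um h n hn)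
  have humR : ∀ n ∈ RR G x k y, ¬ G.Adj um n := (hdi um hcum).resolve_left hum
  refine ⟨fun u hu => ?_, hum, humR, fun hne => ?_, fun h0 => ?_, fun h0 he => hum (he ▸ h0)⟩
  · have hcu : Comp G x (y 0) u := D.p.LK u hu
    obtain ⟨hm1, hmk⟩ := D.in1 u hu
    rcases hdi u hcu with h | h
    · refine Or.inl ⟨h, fun j h1 h2 n hn => ?_⟩
      rcases Nat.lt_or_ge j 2 with h3 | h3
      · have : j = 1 := by omega
        subst this
        exact d1f_all hm1 hp1 (h.2 p hpR) n hn
      · rcases Nat.lt_or_ge (k - 2) j with h4 | h4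
        · have : j = k - 1 := by omega
          subst this
          exact d1f_all hmk hqk (h.2 q hqR) n hn
        · exact h.2 n ⟨j, h3, by omega, hn⟩
    · refine Or.inr ⟨fun h' => h p hpR (h'.2 p hpR), fun j h1 h2 n hn => ?_⟩
      rcases Nat.lt_or_ge j 2 with h3 | h3
      · have : j = 1 := by omega
        subst this
        exact d1f_none hm1 hp1 (h p hpR) n hn
      · rcases Nat.lt_or_ge (k - 2) j with h4 | h4
        · have : j = k - 1 := by omega
          subst this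
          exact d1f_none hmk hqk (h q hqR) n hn
        · exact h n ⟨j, h3, by omega, hn⟩
  · exact d1f_none (D.e0 hne).2 hqk (humR q hqR)
  · have h := (hdi u0 hcu0).resolve_left h0
    exact ⟨h, fun hne => d1f_none (D.e0 hne).1 hp1 (h p hpR)⟩

end Pool.Agent.Helper5.FL
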