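import Pool.Agent.Helper64.FL.StE

set_option autoImplicit false

namespace Pool.Agent.Helper64.FL

open Pool.Agent.Helper64.CT Pool.Agent.Helper64.DT
open Pool.Agent.Helper64.HG (Ovl Model Circ IC HellyCircle ChordModel)

theorem fin_okp {s : Sk} {i j : ℕ} (h : okp s i j = true) : i < s.n ∧ j < s.n ∧ i ≠ j := by
  unfold okp at h
  simp only [Bool.and_eq_true, Bool.not_eq_true', Nat.blt, Nat.ble_eq] at h
  obtain ⟨⟨h1, h2⟩, h3⟩ := h
  refine ⟨h1, h2, ?_⟩
  intro e
  subst e
  rw [Nat.beq_refl] at h3
  cases h3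

theorem fin_prs {T : Ent} {s : Sk} {p : List ℕ} {j : ℕ} : ∀ {k : ℕ}, prs T s p j k = true →
    ∀ i, i < k → okp s (nth p i) (nth p j) = true ∧
      (bif memp i j T.rg then eb s (nth p i) (nth p j) && !(memp i j T.el) else
        memp i j T.el || db s (nth p i) (nth p j)) = true := by
  intro k
  induction k with
  | zero => intro _ i hi; omega
  | succ k ih =>
    intro h i hi
    unfold prs at h
    rw [Bool.and_eq_true, Bool.and_eq_true] at h
    obtain ⟨⟨h1, h2⟩, h3⟩ := h
    rcases Nat.lt_succ_iff_lt_or_eq.1 hi with h4 | h4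
    · exact ih h3 i h4
    · subst h4
      exact ⟨h1, h2⟩

theorem fin_prA {T : Ent} {s : Sk} {p : List ℕ} : ∀ {n : ℕ}, prA T s p n = true →
    ∀ j, j < n → prs T s p j j = true := by
  intro n
  induction n with
  | zero => intro _ i hi; omega
  | succ k ih =>
    intro h i hi
    unfold prA at h
    rw [Bool.and_eq_true] at h
    rcases Nat.lt_succ_iff_lt_or_eq.1 hi with h4 | h4
    · exact ih h.2 i h4
    · subst h4
      exact h.1

theorem fin_allb {n : ℕ} : ∀ {l : List (ℕ × ℕ)}, allb n l = true → ∀ q ∈ l,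
    q.1 < n ∧ q.2 < n ∧ q.1 ≠ q.2 := by
  intro l
  induction l with
  | nil => intro _ q hq; cases hq
  | cons c l ih =>
    intro h q hq
    obtain ⟨a, b⟩ := c
    unfold allb at h
    simp only [Bool.and_eq_true, Bool.not_eq_true', Nat.blt, Nat.ble_eq] at h
    obtain ⟨⟨⟨h1, h2⟩, h3⟩, h4⟩ := h
    rcases List.mem_cons.1 hq with rfl | hq
    · refine ⟨h1, h2, ?_⟩
      intro e
      simp only at e
      subst e
      rw [Nat.beq_refl] at h3
      cases h3
    · exact ih h4 q hq

theorem fin_sgs {m : ℕ} {p : List ℕ} : ∀ {el : List (ℕ × ℕ)} {sg : List Seg},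
    sgs m p el sg = true → el.length = sg.length ∧ ∀ (e a b : ℕ), el[e]? = some (a, b) →
      ∃ g : Seg, sg[e]? = some g ∧ g.u = nth p a ∧ g.w = nth p b ∧
        sub m (sb (sb g.cl g.u) g.w) = true := by
  intro el
  induction el with
  | nil =>
    intro sg h
    cases sg with
    | nil =>
      refine ⟨rfl, ?_⟩
      intro e a b he
      simp at he
    | cons g t =>
      simp [sgs] at h
  | cons c el ih =>
    intro sg h
    obtain ⟨a0, b0⟩ := c
    cases sg with
    | nil => simp [sgs] at h
    | cons g t =>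
      unfold sgs at h
      simp only [Bool.and_eq_true] at h
      obtain ⟨⟨⟨h1, h2⟩, h3⟩, h4⟩ := h
      obtain ⟨i1, i2⟩ := ih h4
      refine ⟨by simp [i1], ?_⟩
      intro e a b he
      cases e with
      | zero =>
        simp only [List.getElem?_cons_zero, Option.some.injEq, Prod.mk.injEq] at he
        obtain ⟨e1, e2⟩ := he
        subst e1
        subst e2
        exact ⟨g, by simp, Nat.eq_of_beq_eq_true h1, Nat.eq_of_beq_eq_true h2, h3⟩
      | succ e =>
        simp only [List.getElem?_cons_succ] at he ⊢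
        exact i2 e a b he

theorem fin_nth_mem : ∀ (p : List ℕ) (m : ℕ), m < p.length → nth p m ∈ p := by
  intro p
  induction p with
  | nil => intro m hm; simp at hm
  | cons a p ih =>
    intro m hm
    cases m with
    | zero => exact List.mem_cons_self
    | succ m => exact List.mem_cons_of_mem _ (ih m (by simpa using hm))

theorem fin_mem_nth : ∀ (p : List ℕ) (i : ℕ), i ∈ p → ∃ m, m < p.length ∧ nth p m = i := by
  intro p
  induction p with
  | nil => intro i hi; cases hi
  | cons a p ih =>
    intro i hi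
    rcases List.mem_cons.1 hi with rfl | hi
    · exact ⟨0, by simp, rfl⟩
    · obtain ⟨m, h1, h2⟩ := ih i hi
      exact ⟨m + 1, by simpa using h1, h2⟩

def fin_P {V : Type} (L : List (Seg × List V)) (e : ℕ) : List V :=
  match L[e]? with
  | some q => q.2
  | none => []

theorem fin_P_get {V : Type} {L : List (Seg × List V)} {e : ℕ} (he : e < L.length) :
    fin_P L e = (L[e]).2 := by
  unfold fin_P
  rw [List.getElem?_eq_getElem he]

theorem st_FIN (h1 : ST_TBS) (_ : ST_PXI) : ST_FIN := by
  intro V G t f L T p hM hc hf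
  obtain ⟨hsb, hsh, hor, hand, hxor, h0, hsub, hclr, hpred, hmsk⟩ := h1
  unfold fin at hf
  simp only [Bool.and_eq_true] at hf
  obtain ⟨⟨⟨⟨f1, f2⟩, f3⟩, f4⟩, f5⟩ := hf
  have f1 := Nat.eq_of_beq_eq_true f1
  have f2 := Nat.eq_of_beq_eq_true f2
  obtain ⟨s1, s2⟩ := fin_sgs f5
  have hn := hM.n32
  have hlen : T.el.length = L.length := by
    rw [s1, ← hM.map, List.length_map]
  have hpair : ∀ i j, i < j → j < T.n → okp t.s (nth p i) (nth p j) = true ∧
      (bif memp i j T.rg then eb t.s (nth p i) (nth p j) && !(memp i j T.el) else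
        memp i j T.el || db t.s (nth p i) (nth p j)) = true := by
    intro i j hij hj
    exact fin_prs (fin_prA f4 j hj) i hij
  have hne : ∀ i j, i < T.n → j < T.n → i ≠ j → nth p i < t.s.n ∧ nth p i ≠ nth p j := by
    intro i j hi hj hij
    rcases Nat.lt_or_gt_of_ne hij with h | h
    · obtain ⟨a1, a2, a3⟩ := fin_okp (hpair i j h hj).1
      exact ⟨a1, a3⟩
    · obtain ⟨a1, a2, a3⟩ := fin_okp (hpair j i h hi).1
      exact ⟨a2, fun e => a3 e.symm⟩
  have hal : ∀ m, m < T.n → tb t.a (nth p m) = true := by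
    intro m hm
    rw [← f2, hmsk]
    exact decide_eq_true (fin_nth_mem p m (by rw [f1]; exact hm))
  refine ⟨fun i => f (nth p i), fin_P L, ?_, ?_, ?_, ?_⟩
  · intro i j hij hj
    obtain ⟨a1, a2⟩ := hpair i j hij hj
    obtain ⟨b1, b2, b3⟩ := fin_okp a1
    refine ⟨fun e => b3 (hM.inj _ _ b1 b2 e), ?_⟩
    intro hel
    rw [hel] at a2
    cases hr : memp i j T.rg with
    | true =>
      rw [hr] at a2
      simp only [cond_true, Bool.not_false, Bool.and_true] at a2
      have := (hM.adj _ _ (lt_of_lt_of_le b1 hn) (lt_of_lt_of_le b2 hn) a2).2.2 b3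
      exact ⟨fun _ => rfl, fun _ => this⟩
    | false =>
      rw [hr] at a2
      simp only [cond_false, Bool.false_or] at a2
      have := (hM.nad _ _ (lt_of_lt_of_le b1 hn) (lt_of_lt_of_le b2 hn) a2).2.2 b3
      exact ⟨fun e => absurd e this, fun e => by cases e⟩
  · intro e a b he
    obtain ⟨g, g1, g2, g3, g4⟩ := s2 e a b he
    obtain ⟨c1, c2, c3⟩ := fin_allb f3 (a, b) (List.mem_of_getElem? he)
    simp only at c1 c2 c3
    have hel : e < L.length := by
      rw [← hlen]
      obtain ⟨h, _⟩ := List.getElem?_eq_some_iff.1 he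
      exact h
    have hg : (L[e]).1 = g := by
      rw [← hM.map, List.getElem?_map, List.getElem?_eq_getElem hel] at g1
      simpa using g1
    have hmem : L[e] ∈ L := List.getElem_mem hel
    rw [fin_P_get hel]
    refine ⟨c1, c2, c3, ?_, ?_⟩
    · have := hM.pth _ hmem
      rw [hg, g2, g3] at this
      exact this
    · intro x hx m hm
      have hmn : nth p m < t.s.n := by
        by_cases hma : m = a
        · subst hma
          exact (hne m b hm c2 c3).1
        · exact (hne m a hm c1 hma).1
      refine ⟨hM.dis _ hmem x hx (nth p m) ⟨hmn, hal m hm⟩, ?_⟩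
      intro hma hmb
      have h2 := (hsub _ _).1 g4 (nth p m) (hal m hm)
      rw [hsb, hsb] at h2
      simp only [Bool.or_eq_true, decide_eq_true_eq] at h2
      have h3 : tb g.cl (nth p m) = true := by
        rcases h2 with (h2 | h2) | h2
        · exact h2
        · rw [g2] at h2
          exact absurd h2.symm (hne m a hm c1 hma).2
        · rw [g3] at h2
          exact absurd h2.symm (hne m b hm c2 hmb).2
      have h4 := hM.cln _ hmem (nth p m) (by rw [hg]; exact h3)
      exact fun e => h4.2.2.2 x hx e.symm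
  · intro e e' hee he' x hx y hy
    rw [hlen] at he'
    have he : e < L.length := lt_trans hee he'
    rw [fin_P_get he] at hx
    rw [fin_P_get he'] at hy
    exact (List.pairwise_iff_getElem.1 hM.sep) e e' he he' hee x hx y hy
  · intro x
    rcases hc x with ⟨i, hi, hx⟩ | ⟨q, hq, hx⟩
    · obtain ⟨hi1, hi2⟩ := hi
      rw [← f2, hmsk] at hi2
      obtain ⟨m, hm1, hm2⟩ := fin_mem_nth p i (of_decide_eq_true hi2)
      refine Or.inl ⟨m, by rw [← f1]; exact hm1, ?_⟩
      simp only [hm2]
      exact hx
    · obtain ⟨e, he, hqe⟩ := List.getElem_of_mem hq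
      refine Or.inr ⟨e, by rw [hlen]; exact he, ?_⟩
      rw [fin_P_get he, hqe]
      exact hx

end Pool.Agent.Helper64.FL
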