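import Pool.Agent.Helper64.FL.StE

set_option autoImplicit false

namespace Pool.Agent.Helper64.FL

open Pool.Agent.Helper64.CT Pool.Agent.Helper64.DT
open Pool.Agent.Helper64.HG (Ovl Model Circ IC HellyCircle ChordModel)

def frf_fr {α : Type} : ℕ → List α → List α
  | _, [] => []
  | 0, l => l
  | k + 1, g :: l =>
    match frf_fr k l with
    | [] => [g]
    | h :: t => h :: g :: t

theorem frf_map {β : Type} (k : ℕ) (L : List (Seg × β)) :
    (frf_fr k L).map Prod.fst = frontL k (L.map Prod.fst) := by
  induction k generalizing L with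
  | zero => cases L <;> rfl
  | succ k ih =>
    cases L with
    | nil => rfl
    | cons g l =>
      have h := ih l
      simp only [frf_fr, frontL, List.map_cons]
      rw [← h]
      cases hh : frf_fr k l with
      | nil => simp
      | cons a t => simp

theorem frf_perm {α : Type} (k : ℕ) (L : List α) : (frf_fr k L).Perm L := by
  induction k generalizing L with
  | zero => cases L <;> exact List.Perm.refl _
  | succ k ih =>
    cases L with
    | nil => exact List.Perm.refl _
    | cons g l =>
      have h := ih l
      simp only [frf_fr]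
      cases hh : frf_fr k l with
      | nil =>
        rw [hh] at h
        have := h.symm.eq_nil
        subst this
        exact List.Perm.refl _
      | cons a t =>
        rw [hh] at h
        exact (List.Perm.swap g a t).trans (List.Perm.cons g h)

theorem frf_modA {V : Type} {G : SimpleGraph V} {A : ℕ → Prop} {s s' : Sk} {f : ℕ → V}
    {L L' : List (Seg × List V)} (h : ModA G A s f L) (hn : s'.n = s.n) (he : s'.e = s.e)
    (hd : s'.d = s.d) (hm : L'.map Prod.fst = s'.sg) (hp : L'.Perm L) : ModA G A s' f L' := by
  refine ⟨?_, ?_, ?_, ?_, ?_, hm, ?_, ?_, ?_, ?_, ?_⟩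
  · rw [hn]; exact h.n32
  · rw [hn]; exact h.alive
  · rw [hn]; exact h.inj
  · intro i j hi hj hh
    have : eb s i j = true := by
      unfold eb at hh ⊢
      rw [he] at hh
      exact hh
    rw [hn]
    exact h.adj i j hi hj this
  · intro i j hi hj hh
    have : db s i j = true := by
      unfold db at hh ⊢
      rw [hd] at hh
      exact hh
    rw [hn]
    exact h.nad i j hi hj this
  · intro p hpp
    rw [hn]
    exact h.bnd p (hp.mem_iff.1 hpp)
  · intro p hpp
    exact h.pth p (hp.mem_iff.1 hpp)
  · intro p hpp
    exact h.dis p (hp.mem_iff.1 hpp)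
  · intro p hpp
    rw [hn]
    exact h.cln p (hp.mem_iff.1 hpp)
  · refine (hp.pairwise_iff ?_).2 h.sep
    intro p q hpq x hx y hy
    obtain ⟨h1, h2⟩ := hpq y hy x hx
    exact ⟨fun e => h1 e.symm, fun e => h2 e.symm⟩

theorem frf_flip {V : Type} {G : SimpleGraph V} {A : ℕ → Prop} {s : Sk} {f : ℕ → V}
    {L : List (Seg × List V)} (hrev : ∀ l, IPt G l → IPt G l.reverse) (h : ModA G A s f L) :
    ∃ L', ModA G A (flipS s) f L' ∧ (CovA A f L → CovA A f L') := by
  cases L with
  | nil =>
    have hm := h.map
    refine ⟨[], ?_, fun hc => hc⟩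
    have : flipS s = s := by
      unfold flipS
      simp only [List.map_nil] at hm
      rw [← hm]
    rw [this]
    exact h
  | cons p L0 =>
    obtain ⟨g, P⟩ := p
    have hm := h.map
    simp only [List.map_cons] at hm
    have hs : flipS s = ⟨s.n, s.e, s.d, ⟨g.w, g.u, g.cl⟩ :: L0.map Prod.fst⟩ := by
      unfold flipS
      rw [← hm]
    refine ⟨(⟨g.w, g.u, g.cl⟩, P.reverse) :: L0, ?_, ?_⟩
    · rw [hs]
      refine ⟨h.n32, h.alive, h.inj, ?_, ?_, ?_, ?_, ?_, ?_, ?_, ?_⟩
      · exact h.adj
      · exact h.nad
      · simp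
      · intro p hp
        rcases List.mem_cons.1 hp with rfl | hp
        · obtain ⟨h1, h2, h3⟩ := h.bnd (g, P) (List.mem_cons_self)
          exact ⟨h2, h1, fun e => h3 e.symm⟩
        · exact h.bnd p (List.mem_cons_of_mem _ hp)
      · intro p hp
        rcases List.mem_cons.1 hp with rfl | hp
        · have h1 := hrev _ (h.pth (g, P) (List.mem_cons_self))
          have e : (f g.u :: (P ++ [f g.w])).reverse = f g.w :: (P.reverse ++ [f g.u]) := by
            simp
          rw [e] at h1
          exact h1
        · exact h.pth p (List.mem_cons_of_mem _ hp)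
      · intro p hp
        rcases List.mem_cons.1 hp with rfl | hp
        · intro x hx
          exact h.dis (g, P) (List.mem_cons_self) x (List.mem_reverse.1 hx)
        · exact h.dis p (List.mem_cons_of_mem _ hp)
      · intro p hp
        rcases List.mem_cons.1 hp with rfl | hp
        · intro i hi
          obtain ⟨h1, h2, h3, h4⟩ := h.cln (g, P) (List.mem_cons_self) i hi
          exact ⟨h1, h3, h2, fun x hx => h4 x (List.mem_reverse.1 hx)⟩
        · exact h.cln p (List.mem_cons_of_mem _ hp)
      · have h1 := List.pairwise_cons.1 h.sep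
        refine List.pairwise_cons.2 ⟨?_, h1.2⟩
        intro q hq x hx y hy
        exact h1.1 q hq x (List.mem_reverse.1 hx) y hy
    · intro hc x
      rcases hc x with h1 | ⟨p, hp, hx⟩
      · exact Or.inl h1
      · rcases List.mem_cons.1 hp with rfl | hp
        · exact Or.inr ⟨_, List.mem_cons_self, List.mem_reverse.2 hx⟩
        · exact Or.inr ⟨p, List.mem_cons_of_mem _ hp, hx⟩

theorem st_FRF (h1 : ST_IPL) : ST_FRF := by
  intro V G A s f L h
  refine ⟨fun k => ⟨frf_fr k L, ?_, ?_⟩, frf_flip (h1 V G).1 h⟩
  · refine frf_modA h rfl rfl rfl ?_ (frf_perm k L)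
    rw [frf_map, h.map]
    rfl
  · intro hc x
    rcases hc x with h2 | ⟨p, hp, hx⟩
    · exact Or.inl h2
    · exact Or.inr ⟨p, (frf_perm k L).mem_iff.2 hp, hx⟩

end Pool.Agent.Helper64.FL
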