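import Pool.Agent.Helper64.FL.StH

set_option autoImplicit false

namespace Pool.Agent.Helper5.FL

open Pool.Agent.Helper64.CT Pool.Agent.Helper64.DT Pool.Agent.Helper64.FL
open Pool.Agent.Helper64.HG (Ovl Model Circ IC HellyCircle ChordModel)

variable {V : Type}

theorem nkc_mod {α : Type} {k : ℕ} {y : ℕ → α} (h : ∀ i, y (i + k) = y i) (i : ℕ) :
    y (i % k) = y i := by
  have key : ∀ m r, y (r + k * m) = y r := by
    intro m r
    induction m with
    | zero => simp
    | succ m ih => rw [Nat.mul_succ, ← Nat.add_assoc, h, ih]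
  have e := key (i / k) (i % k)
  rw [Nat.mod_add_div] at e
  exact e.symm

theorem st_NKC (hALT : ST_ALT) : ST_NKC := by
  intro V G x k n P hR N hodd v
  by_contra hv
  have hk5 := N.k5
  have hk0 : 0 < k := by omega
  have hvx : v ≠ x := fun e => hv (Or.inl e)
  have hvn : ∀ i, v ≠ n i := by
    intro i e
    refine hv (Or.inr (Or.inl ⟨i % k, Nat.mod_lt _ hk0, ?_⟩))
    rw [nkc_mod N.pn]; exact e
  have hvP : ∀ i, v ∉ P i := by
    intro i e
    refine hv (Or.inr (Or.inr ⟨i % k, Nat.mod_lt _ hk0, ?_⟩))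
    rw [nkc_mod N.pP]; exact e
  obtain ⟨b, hb⟩ := hR.naj v
  have hS : ∀ a, arcV x n P a (a + k - 1) ⊆ {w | w ≠ v} := by
    intro a w hw e
    have e' : w = v := e
    subst e'
    rcases hw with h | ⟨i, -, -, h⟩ | ⟨i, -, -, h⟩
    · exact hvx h
    · exact hvn i h
    · exact hvP i h
  have hne : ∀ i, P i ≠ [] := fun i => (N.arc i).ne i le_rfl (by omega)
  have hstep : ∀ i, ∀ u ∈ P i, ∀ w ∈ P (i + 1), b x u ≠ b x w := fun i =>
    (hALT V G _ b hb x n P i (i + k - 1) (N.arc i) (hS i)).2 i le_rfl (by omega)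
  have hval : ∀ i, b x ((P (i + 1)).head (hne _)) = !(b x ((P i).head (hne i))) := by
    intro i
    have h := hstep i _ (List.head_mem (hne i)) _ (List.head_mem (hne (i + 1)))
    revert h
    cases b x ((P i).head (hne i)) <;> cases b x ((P (i + 1)).head (hne _)) <;> simp
  have hpar : ∀ i, b x ((P i).head (hne i)) =
      xor (b x ((P 0).head (hne 0))) (decide (Odd i)) := by
    intro i
    induction i with
    | zero => simp
    | succ i ih =>
      rw [hval, ih]
      by_cases ho : Odd i
      · have : ¬ Odd (i + 1) := by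
          rw [Nat.not_odd_iff_even]; exact ho.add_one
        simp [ho, this]
      · have : Odd (i + 1) := (Nat.not_odd_iff_even.1 ho).add_one
        simp [ho, this]
  have hkk := hpar k
  have hPk : P k = P 0 := by
    have := N.pP 0
    rwa [Nat.zero_add] at this
  have hc : b x ((P k).head (hne k)) = b x ((P 0).head (hne 0)) := by
    congr 1
    simp only [hPk]
  rw [hc] at hkk
  simp [hodd] at hkk

end Pool.Agent.Helper5.FL
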