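import Pool.Agent.Helper64.FL.StH

set_option autoImplicit false

namespace Pool.Agent.Helper5.FL

open Pool.Agent.Helper64.CT Pool.Agent.Helper64.DT Pool.Agent.Helper64.FL
open Pool.Agent.Helper64.HG (Ovl Model Circ IC HellyCircle ChordModel)

variable {V : Type}

theorem shf_csymm {G : SimpleGraph V} {x y z : V} (h : Conf G x y z) : Conf G x z y :=
  ⟨fun c => h.1 c.symm, h.2.2, h.2.1⟩

theorem shf_perm {k : ℕ} {y : ℕ → V} (h : ∀ i, y (i + k) = y i) (m i : ℕ) :
    y (i + k * m) = y i := by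
  induction m with
  | zero => simp
  | succ m ih => rw [Nat.mul_succ, ← Nat.add_assoc, h, ih]

theorem shf_eq {k : ℕ} {y : ℕ → V} (h : ∀ i, y (i + k) = y i) {a b : ℕ} (m m' : ℕ)
    (e : a + k * m = b + k * m') : y a = y b := by
  rw [← shf_perm h m a, e, shf_perm h]

theorem shf_ref {k : ℕ} {y : ℕ → V} (h : ∀ i, y (i + k) = y i) {j : ℕ} (hj : j ≤ k) :
    y ((k - 1) * j) = y (k - j) := by
  rcases Nat.eq_zero_or_pos k with rfl | hk
  · have : j = 0 := by omega
    subst this; rfl
  · obtain ⟨t, rfl⟩ : ∃ t, k = t + 1 := ⟨k - 1, by omega⟩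
    obtain ⟨s, hs⟩ : ∃ s, t + 1 = j + s := ⟨t + 1 - j, by omega⟩
    refine shf_eq h 1 j ?_
    have e1 : t + 1 - 1 = t := by omega
    have e2 : t + 1 - j = s := by omega
    have e3 : (t + 1) * j = t * j + j := by ring
    rw [e1, e2, e3]
    omega

theorem st_SHF : ST_SHF := by
  intro V G x k y M
  have hk5 := M.k5
  have hper := M.per
  have hsh : ∀ s, MOC G x k (fun i => y (i + s)) := by
    intro s
    refine ⟨M.odd, M.k5, fun i => ?_, fun i => ?_, fun i j h1 h2 => ?_, fun i j h1 h2 => ?_, M.min⟩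
    · show y (i + k + s) = y (i + s)
      rw [show i + k + s = (i + s) + k by omega, hper]
    · show Conf G x (y (i + s)) (y (i + 1 + s))
      rw [show i + 1 + s = (i + s) + 1 by omega]
      exact M.cf _
    · exact M.nc (i + s) (j + s) (by omega) (by omega)
    · exact M.ncm (i + s) (j + s) (by omega) (by omega)
  -- the key: positions `(k-1) i` and `(k-1) j` for `i ≤ j`
  have hpos : ∀ i j, i ≤ j → y ((k - 1) * i) = y ((k - 1) * j + (j - i)) := by
    intro i j hij
    obtain ⟨t, rfl⟩ : ∃ t, k = t + 1 := ⟨k - 1, by omega⟩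
    obtain ⟨s, rfl⟩ : ∃ s, j = i + s := ⟨j - i, by omega⟩
    refine shf_eq hper s 0 ?_
    have e1 : t + 1 - 1 = t := by omega
    have e2 : i + s - i = s := by omega
    rw [e1, e2, Nat.mul_add, Nat.add_mul]
    omega
  have hrf : MOC G x k (fun i => y ((k - 1) * i)) := by
    refine ⟨M.odd, M.k5, fun i => ?_, fun i => ?_, fun i j h1 h2 => ?_, fun i j h1 h2 => ?_, M.min⟩
    · show y ((k - 1) * (i + k)) = y ((k - 1) * i)
      refine shf_eq hper 0 (k - 1) ?_
      rw [Nat.mul_add, Nat.mul_zero, Nat.add_zero, Nat.mul_comm k (k - 1)]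
    · show Conf G x (y ((k - 1) * i)) (y ((k - 1) * (i + 1)))
      rw [hpos i (i + 1) (by omega), show i + 1 - i = 1 by omega]
      exact shf_csymm (M.cf _)
    · show ¬ Conf G x (y ((k - 1) * i)) (y ((k - 1) * j))
      rw [hpos i j (by omega)]
      intro h
      exact M.nc ((k - 1) * j) ((k - 1) * j + (j - i)) (by omega) (by omega) (shf_csymm h)
    · show ¬ Comp G x (y ((k - 1) * i)) (y ((k - 1) * j))
      rw [hpos i j (by omega)]
      intro h
      exact M.ncm ((k - 1) * j) ((k - 1) * j + (j - i)) (by omega) (by omega) h.symm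
  have h0 : y ((k - 1) * 0) = y 0 := by rw [Nat.mul_zero]
  have hRR : RR G x k (fun i => y ((k - 1) * i)) = RR G x k y := by
    ext n
    constructor
    · rintro ⟨j, h1, h2, h3⟩
      have h3' : n ∈ Att G x (y ((k - 1) * j)) := h3
      rw [shf_ref hper (by omega)] at h3'
      exact ⟨k - j, by omega, by omega, h3'⟩
    · rintro ⟨j, h1, h2, h3⟩
      refine ⟨k - j, by omega, by omega, ?_⟩
      show n ∈ Att G x (y ((k - 1) * (k - j)))
      rw [shf_ref hper (by omega), show k - (k - j) = j by omega]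
      exact h3
  refine ⟨hsh, hrf, fun i => ?_, fun hD => ⟨?_, hRR, ?_⟩, fun hD => ?_, ?_⟩
  · obtain ⟨-, ⟨u, hu, -⟩, -⟩ := M.cf i
    exact hu.trans hu.symm
  · intro j h1 h2
    show Le G x (y ((k - 1) * j)) (y ((k - 1) * 0))
    rw [h0, shf_ref hper (by omega)]
    exact hD (k - j) (by omega) (by omega)
  · ext u
    unfold UU
    rw [hRR]
    show (Comp G x (y ((k - 1) * 0)) u ∧ _) ↔ _
    rw [h0]
    rfl
  · intro i j h1 h2 h3 n h4 h5
    have h4' : n ∈ Att G x (y ((k - 1) * i)) := h4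
    have h5' : n ∈ Att G x (y ((k - 1) * j)) := h5
    rw [shf_ref hper (by omega)] at h4' h5'
    exact hD (k - j) (k - i) (by omega) (by omega) (by omega) n h5' h4'
  · obtain ⟨t, rfl⟩ : ∃ t, k = t + 2 := ⟨k - 2, by omega⟩
    refine shf_eq hper 0 t ?_
    have e1 : t + 2 - 1 = t + 1 := by omega
    rw [e1]
    ring

end Pool.Agent.Helper5.FL
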