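import Pool.Agent.Helper64.FL.StE

set_option autoImplicit false

namespace Pool.Agent.Helper64.FL

open Pool.Agent.Helper64.CT Pool.Agent.Helper64.DT
open Pool.Agent.Helper64.HG (Ovl Model Circ IC HellyCircle ChordModel)

theorem tap_okp {s : Sk} {i j : ℕ} (h : okp s i j = true) : i < s.n ∧ j < s.n ∧ i ≠ j := by
  unfold okp at h
  simp only [Bool.and_eq_true, Bool.not_eq_true', Nat.blt, Nat.ble_eq] at h
  obtain ⟨⟨h1, h2⟩, h3⟩ := h
  refine ⟨h1, h2, ?_⟩
  intro e
  subst e
  rw [Nat.beq_refl] at h3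
  cases h3

theorem tap_allc {s : Sk} {z c : ℕ} : ∀ {k : ℕ}, allc s z c k = true → ∀ i, i < k → tb c i = true →
    db s z i = true ∧ okp s z i = true := by
  intro k
  induction k with
  | zero => intro _ i hi; omega
  | succ k ih =>
    intro h i hi hb
    unfold allc at h
    simp only [Bool.and_eq_true, Bool.or_eq_true, Bool.not_eq_true'] at h
    obtain ⟨h1, h2⟩ := h
    rcases Nat.lt_succ_iff_lt_or_eq.1 hi with h3 | h3
    · exact ih h2 i h3 hb
    · subst h3
      rcases h1 with h1 | h1
      · rw [hb] at h1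
        cases h1
      · exact h1

theorem tap_allz {z : ℕ} : ∀ {l : List Seg}, allz z l = true → ∀ g ∈ l, tb g.cl z = true := by
  intro l
  induction l with
  | nil => intro _ g hg; cases hg
  | cons a l ih =>
    intro h g hg
    unfold allz at h
    simp only [Bool.and_eq_true] at h
    rcases List.mem_cons.1 hg with rfl | hg
    · exact h.1
    · exact ih h.2 g hg

theorem tap_flipn (s : Sk) : (flipS s).n = s.n := by
  unfold flipS
  cases s.sg <;> rfl

theorem tap_eseg {V : Type} {G : SimpleGraph V} {t : TS} {f : ℕ → V} {L : List (Seg × List V)}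
    (hT : ST_TBS) (h : ModA G (Al t) t.s f L) (hc : CovA (Al t) f L) {i j : ℕ}
    (he : eb t.s i j = true) (ho : okp t.s i j = true) :
    ∃ L', ModA G (Al t) ⟨t.s.n, t.s.e, t.s.d,
      ⟨i, j, clr (clr (Nat.pred (Nat.shiftLeft 1 t.s.n)) i) j⟩ :: t.s.sg⟩ f L' ∧
      CovA (Al t) f L' := by
  obtain ⟨hsb, hsh, hor, hand, hxor, h0, hsub, hclr, hpred, hmsk⟩ := hT
  obtain ⟨hi, hj, hij⟩ := tap_okp ho
  have hn := h.n32
  refine ⟨(⟨i, j, clr (clr (Nat.pred (Nat.shiftLeft 1 t.s.n)) i) j⟩, []) :: L, ?_, ?_⟩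
  · refine ⟨h.n32, h.alive, h.inj, h.adj, h.nad, ?_, ?_, ?_, ?_, ?_, ?_⟩
    · simp only [List.map_cons]
      rw [h.map]
    · intro p hp
      rcases List.mem_cons.1 hp with rfl | hp
      · exact ⟨hi, hj, hij⟩
      · exact h.bnd p hp
    · intro p hp
      rcases List.mem_cons.1 hp with rfl | hp
      · have h1 : f i ≠ f j := fun e => hij (h.inj i j hi hj e)
        have h2 := (h.adj i j (lt_of_lt_of_le hi hn) (lt_of_lt_of_le hj hn) he).2.2 hij
        simp [IPt, h1, h2]
      · exact h.pth p hp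
    · intro p hp
      rcases List.mem_cons.1 hp with rfl | hp
      · intro x hx
        cases hx
      · exact h.dis p hp
    · intro p hp
      rcases List.mem_cons.1 hp with rfl | hp
      · intro k hk
        simp only [hclr, hpred, Bool.and_eq_true, decide_eq_true_eq, Bool.not_eq_true',
          decide_eq_false_iff_not] at hk
        obtain ⟨⟨h1, h2⟩, h3⟩ := hk
        refine ⟨h1, fun e => h2 e.symm, fun e => h3 e.symm, ?_⟩
        intro x hx
        cases hx
      · exact h.cln p hp
    · refine List.pairwise_cons.2 ⟨?_, h.sep⟩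
      intro q _ x hx
      cases hx
  · intro x
    rcases hc x with h1 | ⟨p, hp, hx⟩
    · exact Or.inl h1
    · exact Or.inr ⟨p, List.mem_cons_of_mem _ hp, hx⟩

theorem tap_merge {V : Type} {G : SimpleGraph V} {t : TS} {f : ℕ → V}
    {g h : Seg} {P1 P2 : List V} {L0 : List (Seg × List V)}
    (hT : ST_TBS) (hI : ST_IPL) (hM : ModA G (Al t) t.s f ((g, P1) :: (h, P2) :: L0))
    (hc : CovA (Al t) f ((g, P1) :: (h, P2) :: L0)) (hgw : g.w = h.u)
    (ha1 : tb t.a g.u = true) (ha2 : tb t.a g.w = true) (ha3 : tb t.a h.w = true)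
    (hd : db t.s g.u h.w = true) (ho : okp t.s g.u h.w = true) (hb1 : tb g.cl h.w = true)
    (hb2 : tb h.cl g.u = true) (hallc : allc t.s g.w (Nat.land g.cl h.cl) t.s.n = true)
    (hallz : allz g.w (L0.map Prod.fst) = true) :
    ∃ L', ModA G (Al ⟨clr t.a g.w, ⟨t.s.n, t.s.e, t.s.d, ⟨g.u, h.w, Nat.land g.cl h.cl⟩ ::
      L0.map Prod.fst⟩⟩) ⟨t.s.n, t.s.e, t.s.d, ⟨g.u, h.w, Nat.land g.cl h.cl⟩ ::
      L0.map Prod.fst⟩ f L' ∧ CovA (Al ⟨clr t.a g.w, ⟨t.s.n, t.s.e, t.s.d, ⟨g.u, h.w,
      Nat.land g.cl h.cl⟩ :: L0.map Prod.fst⟩⟩) f L' := by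
  obtain ⟨hsb, hsh, hor, hand, hxor, h0, hsub, hclr, hpred, hmsk⟩ := hT
  obtain ⟨hi, hj, hij⟩ := tap_okp ho
  have hn := hM.n32
  have hg : (g, P1) ∈ (g, P1) :: (h, P2) :: L0 := List.mem_cons_self
  have hh : (h, P2) ∈ (g, P1) :: (h, P2) :: L0 := List.mem_cons_of_mem _ List.mem_cons_self
  have hL : ∀ p ∈ L0, p ∈ (g, P1) :: (h, P2) :: L0 := fun p hp =>
    List.mem_cons_of_mem _ (List.mem_cons_of_mem _ hp)
  have hsep := List.pairwise_cons.1 hM.sep
  have hsep2 := List.pairwise_cons.1 hsep.2
  have hbg := hM.bnd _ hg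
  have hAl : ∀ i, Al ⟨clr t.a g.w, ⟨t.s.n, t.s.e, t.s.d, ⟨g.u, h.w, Nat.land g.cl h.cl⟩ ::
      L0.map Prod.fst⟩⟩ i → Al t i ∧ g.w ≠ i := by
    intro i hii
    obtain ⟨h1, h2⟩ := hii
    simp only [hclr, Bool.and_eq_true, Bool.not_eq_true', decide_eq_false_iff_not] at h2
    exact ⟨⟨h1, h2.1⟩, h2.2⟩
  refine ⟨(⟨g.u, h.w, Nat.land g.cl h.cl⟩, P1 ++ f g.w :: P2) :: L0, ?_, ?_⟩
  · refine ⟨hM.n32, fun i hi => hi.1, hM.inj, hM.adj, hM.nad, ?_, ?_, ?_, ?_, ?_, ?_⟩
    · simp only [List.map_cons]
    · intro p hp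
      rcases List.mem_cons.1 hp with rfl | hp
      · exact ⟨hi, hj, hij⟩
      · exact hM.bnd p (hL p hp)
    · intro p hp
      rcases List.mem_cons.1 hp with rfl | hp
      · have e : f g.u :: ((P1 ++ f g.w :: P2) ++ [f h.w]) =
            (f g.u :: P1) ++ f g.w :: (P2 ++ [f h.w]) := by simp
        show IPt G (f g.u :: ((P1 ++ f g.w :: P2) ++ [f h.w]))
        rw [e]
        refine ((hI V G).2.1 (f g.u :: P1) (P2 ++ [f h.w]) (f g.w)).2 ⟨?_, ?_, ?_⟩
        · have := hM.pth _ hg
          simpa using this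
        · have := hM.pth _ hh
          rw [hgw]
          exact this
        · intro x hx y hy
          rcases List.mem_cons.1 hx with rfl | hx
          · rcases List.mem_append.1 hy with hy | hy
            · exact ⟨fun e => hM.dis _ hh y hy g.u ⟨hi, ha1⟩ e.symm,
                (hM.cln _ hh g.u hb2).2.2.2 y hy⟩
            · rw [List.mem_singleton] at hy
              subst hy
              exact ⟨fun e => hij (hM.inj _ _ hi hj e),
                (hM.nad _ _ (lt_of_lt_of_le hi hn) (lt_of_lt_of_le hj hn) hd).2.2 hij⟩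
          · rcases List.mem_append.1 hy with hy | hy
            · exact hsep.1 _ List.mem_cons_self x hx y hy
            · rw [List.mem_singleton] at hy
              subst hy
              exact ⟨hM.dis _ hg x hx h.w ⟨hj, ha3⟩,
                fun e => (hM.cln _ hg h.w hb1).2.2.2 x hx e.symm⟩
      · exact hM.pth p (hL p hp)
    · intro p hp
      rcases List.mem_cons.1 hp with rfl | hp
      · intro x hx i hA
        obtain ⟨h1, h2⟩ := hAl i hA
        rcases List.mem_append.1 hx with hx | hx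
        · exact hM.dis _ hg x hx i h1
        · rcases List.mem_cons.1 hx with rfl | hx
          · exact fun e => h2 (hM.inj _ _ hbg.2.1 h1.1 e)
          · exact hM.dis _ hh x hx i h1
      · intro x hx i hA
        exact hM.dis p (hL p hp) x hx i (hAl i hA).1
    · intro p hp
      rcases List.mem_cons.1 hp with rfl | hp
      · intro i hb
        have hb' := hb
        simp only [hand, Bool.and_eq_true] at hb'
        have c1 := hM.cln _ hg i hb'.1
        have c2 := hM.cln _ hh i hb'.2
        refine ⟨c1.1, c1.2.1, c2.2.2.1, ?_⟩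
        intro x hx
        rcases List.mem_append.1 hx with hx | hx
        · exact c1.2.2.2 x hx
        · rcases List.mem_cons.1 hx with rfl | hx
          · obtain ⟨d1, d2⟩ := tap_allc hallc i c1.1 hb
            obtain ⟨e1, e2, e3⟩ := tap_okp d2
            have := (hM.nad _ _ (lt_of_lt_of_le e1 hn) (lt_of_lt_of_le e2 hn) d1).2.2 e3
            exact fun e => this e.symm
          · exact c2.2.2.2 x hx
      · exact hM.cln p (hL p hp)
    · refine List.pairwise_cons.2 ⟨?_, hsep2.2⟩
      intro q hq x hx y hy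
      rcases List.mem_append.1 hx with hx | hx
      · exact hsep.1 q (List.mem_cons_of_mem _ hq) x hx y hy
      · rcases List.mem_cons.1 hx with rfl | hx
        · refine ⟨fun e => hM.dis q (hL q hq) y hy g.w ⟨hbg.2.1, ha2⟩ e.symm, ?_⟩
          exact (hM.cln q (hL q hq) g.w (tap_allz hallz q.1 (List.mem_map_of_mem hq))).2.2.2 y hy
        · exact hsep2.1 q hq x hx y hy
  · intro x
    rcases hc x with ⟨i, hi1, hx⟩ | ⟨p, hp, hx⟩
    · by_cases hw : g.w = i
      · refine Or.inr ⟨_, List.mem_cons_self, ?_⟩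
        subst hw
        rw [hx]
        simp
      · refine Or.inl ⟨i, ⟨hi1.1, ?_⟩, hx⟩
        simp only [hclr, Bool.and_eq_true, Bool.not_eq_true', decide_eq_false_iff_not]
        exact ⟨hi1.2, hw⟩
    · rcases List.mem_cons.1 hp with rfl | hp
      · refine Or.inr ⟨_, List.mem_cons_self, ?_⟩
        exact List.mem_append_left _ hx
      · rcases List.mem_cons.1 hp with rfl | hp
        · refine Or.inr ⟨_, List.mem_cons_self, ?_⟩
          exact List.mem_append_right _ (List.mem_cons_of_mem _ hx)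
        · exact Or.inr ⟨p, List.mem_cons_of_mem _ hp, hx⟩

theorem st_TAP (h1 : ST_TBS) (_ : ST_PXI) (h3 : ST_IPL) (h4 : ST_FRF) : ST_TAP := by
  intro V G t t' f L o hM hc ht
  cases o with
  | front k =>
    simp only [tap, Option.some.injEq] at ht
    subst ht
    obtain ⟨L', hL1, hL2⟩ := (h4 V G (Al t) t.s f L hM).1 k
    exact ⟨L', hL1, hL2 hc⟩
  | flip =>
    simp only [tap, Option.some.injEq] at ht
    subst ht
    obtain ⟨L', hL1, hL2⟩ := (h4 V G (Al t) t.s f L hM).2
    have e : Al ⟨t.a, flipS t.s⟩ = Al t := by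
      funext i
      unfold Al
      rw [tap_flipn]
    rw [e]
    exact ⟨L', hL1, hL2 hc⟩
  | eseg i j =>
    unfold tap at ht
    cases hh : (eb t.s i j && okp t.s i j && tb t.a i && tb t.a j) with
    | false =>
      simp only [hh, cond_false] at ht
      cases ht
    | true =>
      simp only [hh, cond_true, Option.some.injEq] at ht
      simp only [Bool.and_eq_true] at hh
      subst ht
      exact tap_eseg h1 hM hc hh.1.1.1 hh.1.1.2
  | merge =>
    unfold tap at ht
    have hmap := hM.map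
    cases L with
    | nil =>
      simp only [List.map_nil] at hmap
      rw [← hmap] at ht
      cases ht
    | cons p L1 =>
      cases L1 with
      | nil =>
        simp only [List.map_cons, List.map_nil] at hmap
        rw [← hmap] at ht
        cases ht
      | cons q L0 =>
        obtain ⟨g, P1⟩ := p
        obtain ⟨h, P2⟩ := q
        simp only [List.map_cons] at hmap
        simp only [← hmap] at ht
        cases hh : (Nat.beq g.w h.u && tb t.a g.u && tb t.a g.w && tb t.a h.w && db t.s g.u h.w &&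
            okp t.s g.u h.w && tb g.cl h.w && tb h.cl g.u &&
            allc t.s g.w (Nat.land g.cl h.cl) t.s.n && allz g.w (L0.map Prod.fst)) with
        | false =>
          simp only [hh, cond_false] at ht
          cases ht
        | true =>
          simp only [hh, cond_true, Option.some.injEq] at ht
          simp only [Bool.and_eq_true] at hh
          subst ht
          obtain ⟨⟨⟨⟨⟨⟨⟨⟨⟨a1, a2⟩, a3⟩, a4⟩, a5⟩, a6⟩, a7⟩, a8⟩, a9⟩, a10⟩ := hh
          exact tap_merge h1 h3 hM hc (Nat.eq_of_beq_eq_true a1) a2 a3 a4 a5 a6 a7 a8 a9 a10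

end Pool.Agent.Helper64.FL
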